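import Mathlib

/-!
Upper domination, upper irredundance, the chair, and cores.
-/

namespace Pool.Agent.MP_55bf9a_co

variable {V : Type*} (G : SimpleGraph V)

/-- The closed neighbourhood `N[X]` of a set of vertices. -/
def closedNbhd (X : Set V) : Set V := {v | v ∈ X ∨ ∃ x ∈ X, G.Adj x v}

/-- Every member of `X` has a private neighbour. -/
def IsIrredundant (X : Set V) : Prop :=
  ∀ x ∈ X, (closedNbhd G {x} \ closedNbhd G (X \ {x})).Nonempty

/-- `N[X]` is the whole vertex set. -/
def IsDom (X : Set V) : Prop := closedNbhd G X = Set.univ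

/-- The largest size of a minimal dominating set. -/
noncomputable def upperDom : ℕ := sSup {n | ∃ X : Set V, Minimal (IsDom G) X ∧ X.ncard = n}

/-- The largest size of an irredundant set. -/
noncomputable def upperIrr : ℕ := sSup {n | ∃ X : Set V, IsIrredundant G X ∧ X.ncard = n}

/-- The chair (fork): the claw with one edge subdivided. -/
def chair : SimpleGraph (Fin 5) :=
  SimpleGraph.fromEdgeSet {s(0, 1), s(0, 2), s(0, 3), s(3, 4)}

/-- `X` induces a disjoint union of cliques, each with at least two vertices. -/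
def IsCliqueUnion (X : Set V) : Prop :=
  (∀ a ∈ X, ∃ b ∈ X, G.Adj a b) ∧
    ∀ a ∈ X, ∀ b ∈ X, ∀ c ∈ X, G.Adj a b → G.Adj a c → b ≠ c → G.Adj b c

/-- Independently matched unions of cliques that induce a connected graph with a triangle. -/
structure IsCore (X Y : Set V) : Prop where
  disjoint : Disjoint X Y
  matchX : ∀ x ∈ X, ∃! y, y ∈ Y ∧ G.Adj x y
  matchY : ∀ y ∈ Y, ∃! x, x ∈ X ∧ G.Adj x y
  cliquesX : IsCliqueUnion G X
  cliquesY : IsCliqueUnion G Y
  connected : (G.induce (X ∪ Y)).Connected
  triangle : ¬(G.induce (X ∪ Y)).CliqueFree 3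

end Pool.Agent.MP_55bf9a_co
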