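import Pool.Prelude.Def_F_458e953d
import Pool.Agent.Lib.Cx.GraphDefs
import Pool.Agent.MP_55bf9a_co.Defs

/-!
The second universal level of the polynomial hierarchy and the recognition language.
-/

namespace Pool.Agent.MP_55bf9a_co

/-- Languages of the form: for all short `y` there is a short `z` passing a polynomial-time test. -/
def PiTwo : Set (List Bool → Bool) :=
  {L | ∃ (p : Polynomial ℕ) (R : List Bool × List Bool × List Bool → Bool),
    N68a2faeb.IsPolyTime R ∧ ∀ x, L x = true ↔ ∀ y : List Bool, y.length ≤ p.eval x.length →
      ∃ z : List Bool, z.length ≤ p.eval x.length ∧ R (x, y, z) = true}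

open Classical in
/-- Code words of the adjacency matrices of the graphs that are perfect for upper domination and
upper irredundance and imperfect for independence and upper domination. -/
noncomputable def classLang : List Bool → Bool := fun x =>
  decide (∃ (n : ℕ) (G : SimpleGraph (Fin n)),
    x = N487b59b3.bitEncode (Pool.Agent.Lib.Cx.adjRows G) ∧
    (∀ S : Set (Fin n), upperDom (G.induce S) = upperIrr (G.induce S)) ∧
    ¬∀ S : Set (Fin n), (G.induce S).indepNum = upperDom (G.induce S))

end Pool.Agent.MP_55bf9a_co
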